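import Pool.Agent.Run7.h325.HRT.Stm

set_option autoImplicit false

/-!
# FINAL: the sum over all `m` of the sums `S (Am m) x n` is at most `-2 log n`

Piece FINAL of `Pool.Agent.Run7.h325.HRT.Stm`.
-/

namespace Pool.Agent.Run7.h882.HRT

open Pool.Agent.Run7.h325.HRT

theorem sq_le_five_pow (a : ℕ) : (a + 1) ^ 2 ≤ 5 ^ a := by
  induction a with
  | zero => norm_num
  | succ a ih =>
    have h1 : 5 ^ (a + 1) = 5 * 5 ^ a := by rw [pow_succ]; ring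
    rw [h1]
    nlinarith [ih, Nat.zero_le a, sq_nonneg a]

/-- linear growth is dominated by powers of five -/
theorem ev_bound (K : ℝ) : ∃ a₀ : ℕ, ∀ a : ℕ, a₀ ≤ a → K * ((a : ℝ) + 1) ≤ (5 : ℝ) ^ a := by
  refine ⟨⌈K⌉₊, fun a ha => ?_⟩
  have h1 : K ≤ (a : ℝ) := (Nat.le_ceil K).trans (by exact_mod_cast ha)
  have h2 : ((a : ℝ) + 1) ^ 2 ≤ (5 : ℝ) ^ a := by exact_mod_cast sq_le_five_pow a
  have h3 : (0 : ℝ) ≤ (a : ℝ) := Nat.cast_nonneg a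
  nlinarith

theorem log_five_le : Real.log 5 ≤ 2 := by
  have h : Real.log 5 ≤ Real.log (Real.exp 2) := by
    apply Real.log_le_log (by norm_num)
    have h1 : (2.7182818283 : ℝ) < Real.exp 1 := Real.exp_one_gt_d9
    have h2 : Real.exp 2 = Real.exp 1 * Real.exp 1 := by rw [← Real.exp_add]; norm_num
    rw [h2]; nlinarith
  simpa using h

/-- the error term of PMAIN -/
noncomputable def E (n R : ℕ) : ℝ :=
  (R : ℝ) ^ 40 + ((n : ℝ) / R + 1) * (1 + Real.log n + Real.log R)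

theorem E_le (a T n : ℕ) (hT1 : 88 * a ≤ T) (hT2 : T ≤ 88 * a + 87) (hn1 : 1 ≤ n)
    (hn2 : n < 5 ^ (T + 1)) :
    E n (5 ^ (2 * a)) ≤ 529 * (5 : ℝ) ^ 88 * (5 : ℝ) ^ (86 * a) * ((a : ℝ) + 1) := by
  have ha0 : (0 : ℝ) ≤ (a : ℝ) := Nat.cast_nonneg a
  have hn2' : (n : ℝ) ≤ (5 : ℝ) ^ (T + 1) := by exact_mod_cast hn2.le
  have hn1' : (1 : ℝ) ≤ (n : ℝ) := by exact_mod_cast hn1
  have hlog5 := log_five_le
  have hlog50 : 0 ≤ Real.log 5 := Real.log_nonneg (by norm_num)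
  have hTa : (T : ℝ) ≤ 88 * a + 87 := by exact_mod_cast hT2
  have hlogn : Real.log n ≤ 2 * ((T : ℝ) + 1) := by
    have h1 : Real.log n ≤ Real.log ((5 : ℝ) ^ (T + 1)) :=
      Real.log_le_log (by linarith) hn2'
    rw [Real.log_pow] at h1
    push_cast at h1
    nlinarith [Nat.cast_nonneg (α := ℝ) T]
  have hlogR : Real.log ((5 : ℝ) ^ (2 * a)) ≤ 4 * a := by
    rw [Real.log_pow]
    push_cast
    nlinarith
  have hR1 : ((5 ^ (2 * a) : ℕ) : ℝ) ^ 40 = (5 : ℝ) ^ (80 * a) := by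
    push_cast
    rw [← pow_mul]
    congr 1
    ring
  have hR2 : (5 : ℝ) ^ (80 * a) ≤ (5 : ℝ) ^ (86 * a) :=
    pow_le_pow_right₀ (by norm_num) (by omega)
  have hnR : (n : ℝ) / ((5 ^ (2 * a) : ℕ) : ℝ) ≤ (5 : ℝ) ^ 88 * (5 : ℝ) ^ (86 * a) := by
    push_cast
    rw [div_le_iff₀ (by positivity)]
    refine hn2'.trans ?_
    rw [← pow_add, ← pow_add]
    exact pow_le_pow_right₀ (by norm_num) (by omega)
  have h861 : (1 : ℝ) ≤ (5 : ℝ) ^ (86 * a) := one_le_pow₀ (by norm_num)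
  have h881 : (1 : ℝ) ≤ (5 : ℝ) ^ 88 := one_le_pow₀ (by norm_num)
  unfold E
  rw [hR1]
  have hlogs : 1 + Real.log n + Real.log ((5 ^ (2 * a) : ℕ) : ℝ) ≤ 264 * ((a : ℝ) + 1) := by
    push_cast
    linarith
  have hlogs0 : 0 ≤ 1 + Real.log n + Real.log ((5 ^ (2 * a) : ℕ) : ℝ) := by
    have h1 : 0 ≤ Real.log n := Real.log_nonneg hn1'
    have h2 : 0 ≤ Real.log ((5 ^ (2 * a) : ℕ) : ℝ) := by
      apply Real.log_nonneg
      exact_mod_cast Nat.one_le_pow _ _ (by norm_num)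
    linarith
  generalize (5 : ℝ) ^ 88 = P at *
  generalize (5 : ℝ) ^ (86 * a) = Q at *
  have hPQ : 1 ≤ P * Q := by nlinarith
  have hQPQ : Q ≤ P * Q := by nlinarith
  have hprod : ((n : ℝ) / ((5 ^ (2 * a) : ℕ) : ℝ) + 1) *
      (1 + Real.log n + Real.log ((5 ^ (2 * a) : ℕ) : ℝ)) ≤
      (2 * (P * Q)) * (264 * ((a : ℝ) + 1)) := by
    apply mul_le_mul _ hlogs hlogs0 (by positivity)
    linarith
  have h3 : (5 : ℝ) ^ (80 * a) ≤ P * Q * ((a : ℝ) + 1) := by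
    have : P * Q ≤ P * Q * ((a : ℝ) + 1) := by nlinarith
    linarith
  calc (5 : ℝ) ^ (80 * a) + ((n : ℝ) / ((5 ^ (2 * a) : ℕ) : ℝ) + 1) *
      (1 + Real.log n + Real.log ((5 ^ (2 * a) : ℕ) : ℝ))
      ≤ P * Q * ((a : ℝ) + 1) + (2 * (P * Q)) * (264 * ((a : ℝ) + 1)) := add_le_add h3 hprod
    _ = 529 * P * Q * ((a : ℝ) + 1) := by ring

theorem FINAL (hP : S_PMAIN) (hS : S_SEQ) : S_FINAL := by
  intro x hx
  obtain ⟨C, T₀, hseq⟩ := hS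
  -- constants of PMAIN
  have hch : ∀ m : ℕ, ∃ c : ℝ, 0 ≤ c ∧ (1 ≤ m → ∀ n R : ℕ, 1 ≤ n → 1 ≤ R →
      S (Am m) x n ≤ c * E n R ∧
      ∀ q : ℕ, 1 ≤ q → 5 ^ f m q ≤ R ^ 4 →
        4 * ((n : ℝ) + |x|) * 5 ^ f m q ≤ 5 ^ f m (q + 1) →
        S (Am m) x n ≤ c * E n R -
          (x + n) ^ 2 / (20 * (5 : ℝ) ^ f m q * (5 : ℝ) ^ f m (q + 1))) := by
    intro m
    by_cases hm : 1 ≤ m
    · obtain ⟨c, hc0, hc⟩ := hP m x hm hx
      exact ⟨c, hc0, fun _ => hc⟩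
    · exact ⟨0, le_rfl, fun h => absurd h hm⟩
  choose c hc0 hc using hch
  set I : Finset ℕ := Finset.Icc 128 131072 with hI
  set C1 : ℝ := ∑ m ∈ I, c m with hC1
  have hC10 : 0 ≤ C1 := Finset.sum_nonneg (fun m _ => hc0 m)
  -- the main estimate
  have hmain : ∀ (n R m₀ q : ℕ), 1 ≤ n → 1 ≤ R → m₀ ∈ I → 1 ≤ q → 5 ^ f m₀ q ≤ R ^ 4 →
      4 * ((n : ℝ) + |x|) * 5 ^ f m₀ q ≤ 5 ^ f m₀ (q + 1) →
      ∑ m ∈ I, S (Am m) x n ≤ C1 * E n R -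
        (x + n) ^ 2 / (20 * (5 : ℝ) ^ f m₀ q * (5 : ℝ) ^ f m₀ (q + 1)) := by
    intro n R m₀ q hn hR hm₀ hq h1 h2
    have hle : ∀ m ∈ I, S (Am m) x n ≤ c m * E n R - (if m = m₀ then
        (x + n) ^ 2 / (20 * (5 : ℝ) ^ f m₀ q * (5 : ℝ) ^ f m₀ (q + 1)) else 0) := by
      intro m hm
      have hm1 : 1 ≤ m := by
        rw [hI, Finset.mem_Icc] at hm
        omega
      by_cases hmm : m = m₀
      · subst hmm
        rw [if_pos rfl]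
        exact (hc m hm1 n R hn hR).2 q hq h1 h2
      · rw [if_neg hmm, sub_zero]
        exact (hc m hm1 n R hn hR).1
    refine (Finset.sum_le_sum hle).trans (le_of_eq ?_)
    rw [Finset.sum_sub_distrib, ← Finset.sum_mul, Finset.sum_ite_eq' I m₀, if_pos hm₀]
  -- large `a`
  obtain ⟨a₀, ha₀⟩ := ev_bound ((C1 * (529 * (5 : ℝ) ^ 88) + 352) * (80 * (5 : ℝ) ^ (89 + C)))
  -- the threshold
  refine ⟨5 ^ (88 * (a₀ + 1) + T₀) + ⌈2 * |x|⌉₊, fun n hn => ?_⟩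
  have hnpow : 5 ^ (88 * (a₀ + 1) + T₀) ≤ n := le_trans (Nat.le_add_right _ _) hn
  have hnx : 2 * |x| ≤ (n : ℝ) := by
    refine (Nat.le_ceil _).trans ?_
    exact_mod_cast le_trans (Nat.le_add_left _ _) hn
  have hn1 : 1 ≤ n := le_trans (Nat.one_le_pow _ _ (by norm_num)) hnpow
  have hn0 : n ≠ 0 := by omega
  set T : ℕ := Nat.log 5 n with hT
  have hTle : 5 ^ T ≤ n := Nat.pow_log_le_self 5 hn0
  have hTlt : n < 5 ^ (T + 1) := Nat.lt_pow_succ_log_self (by norm_num) n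
  have hTlow : 88 * (a₀ + 1) + T₀ ≤ T := Nat.le_log_of_pow_le (by norm_num) hnpow
  set a : ℕ := T / 88 with ha
  have hT1 : 88 * a ≤ T := Nat.mul_div_le T 88
  have hT2 : T ≤ 88 * a + 87 := by omega
  have haa : a₀ + 1 ≤ a := by omega
  obtain ⟨m, q, hm1, hm2, hq, hf1, hf2, hf3⟩ := hseq T (by omega)
  have hmI : m ∈ I := by rw [hI, Finset.mem_Icc]; exact ⟨hm1, hm2⟩
  have hcond1 : 5 ^ f m q ≤ (5 ^ (2 * a)) ^ 4 := by
    rw [← pow_mul]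
    exact Nat.pow_le_pow_right (by norm_num) (by omega)
  have hTR : (5 : ℝ) ^ T ≤ (n : ℝ) := by exact_mod_cast hTle
  have hTR2 : (n : ℝ) ≤ 5 * (5 : ℝ) ^ T := by
    have : (n : ℝ) ≤ (5 : ℝ) ^ (T + 1) := by exact_mod_cast hTlt.le
    rw [pow_succ] at this
    linarith
  have habs : 0 ≤ |x| := abs_nonneg x
  have hcond2 : 4 * ((n : ℝ) + |x|) * 5 ^ f m q ≤ 5 ^ f m (q + 1) := by
    have h1 : 4 * ((n : ℝ) + |x|) ≤ (5 : ℝ) ^ (T + 3) := by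
      rw [pow_add]
      have h5 : (0 : ℝ) < (5 : ℝ) ^ T := by positivity
      nlinarith
    have h2 : (5 : ℝ) ^ (T + 3) * 5 ^ f m q ≤ 5 ^ f m (q + 1) := by
      rw [← pow_add]
      exact pow_le_pow_right₀ (by norm_num) (by omega)
    refine le_trans ?_ h2
    exact mul_le_mul_of_nonneg_right h1 (by positivity)
  have hkey := hmain n (5 ^ (2 * a)) m q hn1 (Nat.one_le_pow _ _ (by norm_num)) hmI hq hcond1 hcond2
  have hE := E_le a T n hT1 hT2 hn1 hTlt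
  -- the main term
  have hmainterm : (5 : ℝ) ^ (87 * a) / (80 * (5 : ℝ) ^ (89 + C)) ≤
      (x + n) ^ 2 / (20 * (5 : ℝ) ^ f m q * (5 : ℝ) ^ f m (q + 1)) := by
    have hx1 : (n : ℝ) / 2 ≤ x + n := by
      have := neg_abs_le x
      linarith
    have hsq : ((5 : ℝ) ^ T) ^ 2 / 4 ≤ (x + n) ^ 2 := by
      have h5 : (0 : ℝ) < (5 : ℝ) ^ T := by positivity
      have h6 : (5 : ℝ) ^ T / 2 ≤ x + n := by linarith
      nlinarith
    rw [div_le_div_iff₀ (by positivity) (by positivity)]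
    have hexp : (5 : ℝ) ^ (87 * a) * ((5 : ℝ) ^ f m q * (5 : ℝ) ^ f m (q + 1)) ≤
        ((5 : ℝ) ^ T) ^ 2 * (5 : ℝ) ^ (89 + C) := by
      rw [← pow_add, ← pow_add, ← pow_mul, ← pow_add]
      exact pow_le_pow_right₀ (by norm_num) (by omega)
    calc (5 : ℝ) ^ (87 * a) * (20 * (5 : ℝ) ^ f m q * (5 : ℝ) ^ f m (q + 1))
        = 20 * ((5 : ℝ) ^ (87 * a) * ((5 : ℝ) ^ f m q * (5 : ℝ) ^ f m (q + 1))) := by ring
      _ ≤ 20 * (((5 : ℝ) ^ T) ^ 2 * (5 : ℝ) ^ (89 + C)) := by linarith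
      _ = (((5 : ℝ) ^ T) ^ 2 / 4) * (80 * (5 : ℝ) ^ (89 + C)) := by ring
      _ ≤ (x + n) ^ 2 * (80 * (5 : ℝ) ^ (89 + C)) :=
          mul_le_mul_of_nonneg_right hsq (by positivity)
  have hlogn : 2 * Real.log n ≤ 352 * ((a : ℝ) + 1) := by
    have hnT : (n : ℝ) ≤ (5 : ℝ) ^ (T + 1) := by exact_mod_cast hTlt.le
    have hn1' : (1 : ℝ) ≤ (n : ℝ) := by exact_mod_cast hn1
    have h1 : Real.log n ≤ Real.log ((5 : ℝ) ^ (T + 1)) :=
      Real.log_le_log (by linarith) hnT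
    rw [Real.log_pow] at h1
    push_cast at h1
    have h2 : (T : ℝ) ≤ 88 * a + 87 := by exact_mod_cast hT2
    have h3 := log_five_le
    have h4 : ((T : ℝ) + 1) * Real.log 5 ≤ ((T : ℝ) + 1) * 2 :=
      mul_le_mul_of_nonneg_left h3 (by positivity)
    linarith
  have hev := ha₀ a (by omega)
  have hpow : (5 : ℝ) ^ (87 * a) = (5 : ℝ) ^ (86 * a) * (5 : ℝ) ^ a := by
    rw [← pow_add]; congr 1; omega
  have h861 : (1 : ℝ) ≤ (5 : ℝ) ^ (86 * a) := one_le_pow₀ (by norm_num)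
  have ha0 : (0 : ℝ) ≤ (a : ℝ) := Nat.cast_nonneg a
  have hCE : C1 * E n (5 ^ (2 * a)) ≤
      C1 * (529 * (5 : ℝ) ^ 88 * (5 : ℝ) ^ (86 * a) * ((a : ℝ) + 1)) :=
    mul_le_mul_of_nonneg_left hE hC10
  have hfin : (C1 * (529 * (5 : ℝ) ^ 88) + 352) * ((a : ℝ) + 1) * (5 : ℝ) ^ (86 * a) ≤
      (5 : ℝ) ^ (87 * a) / (80 * (5 : ℝ) ^ (89 + C)) := by
    rw [le_div_iff₀ (by positivity), hpow]
    have := mul_le_mul_of_nonneg_left hev (le_trans zero_le_one h861)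
    nlinarith [this]
  have h352 : 352 * ((a : ℝ) + 1) ≤ 352 * ((a : ℝ) + 1) * (5 : ℝ) ^ (86 * a) := by
    nlinarith
  have hsplit : (C1 * (529 * (5 : ℝ) ^ 88) + 352) * ((a : ℝ) + 1) * (5 : ℝ) ^ (86 * a) =
      C1 * (529 * (5 : ℝ) ^ 88 * (5 : ℝ) ^ (86 * a) * ((a : ℝ) + 1)) +
        352 * ((a : ℝ) + 1) * (5 : ℝ) ^ (86 * a) := by ring
  linarith

end Pool.Agent.Run7.h882.HRT
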